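import Pool.Agent.Lib.HermUnital
import Pool.Agent.Lib.HermUnital2

set_option autoImplicit false

namespace Pool.Agent.Results.MP_6d5213_co.SquareFields

open Pool.Agent.Lib.HermUnital SimpleGraph

/-- `M` is representable over `F`: some vectors `v e` over `F` have the same independent sets. -/
def Representable (F : Type) [Field F] {α : Type} (M : Matroid α) : Prop :=
  ∃ (n : ℕ) (v : α → (Fin n → F)), ∀ I ⊆ M.E, M.Indep I ↔ LinearIndependent F (fun x : I => v x)

/-- `M` is simple: no loops (`e = f`) and no two-element circuits. -/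
def Simple {α : Type} (M : Matroid α) : Prop := ∀ e ∈ M.E, ∀ f ∈ M.E, M.Indep {e, f}

/-- `N` is (isomorphic to) the cycle matroid of `K_4`: its elements correspond to the edges of
`K_4`, and a set is independent iff the corresponding edges contain no cycle. -/
def IsMK4 {α : Type} (N : Matroid α) : Prop :=
  ∃ φ : α → Sym2 (Fin 4), Set.BijOn φ N.E {s | ¬ s.IsDiag} ∧
    ∀ I ⊆ N.E, N.Indep I ↔ (SimpleGraph.fromEdgeSet (φ '' I)).IsAcyclic

/-- `M` belongs to the class `C_q`, `q = |F|`: simple, representable over `F`, no `M(K_4)`-minor. -/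
def InClass (F : Type) [Field F] {α : Type} (M : Matroid α) : Prop :=
  Representable F M ∧ Simple M ∧ ¬ ∃ N : Matroid α, Matroid.IsMinor N M ∧ IsMK4 N

/-- `M` has rank `r`. -/
def HasRank {α : Type} (M : Matroid α) (r : ℕ) : Prop := ∃ B, M.IsBase B ∧ B.ncard = r

/-! ### graphs with two edges -/

theorem pair_acyclic (a b : Sym2 (Fin 4)) :
    (SimpleGraph.fromEdgeSet ({a, b} : Set (Sym2 (Fin 4)))).IsAcyclic := by
  classical
  intro v c hc
  have h3 := hc.isCircuit.three_le_length
  have hnd := hc.isCircuit.isTrail.edges_nodup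
  have hsub : c.edges.toFinset ⊆ ({a, b} : Finset (Sym2 (Fin 4))) := by
    intro e he
    rw [List.mem_toFinset] at he
    have := c.edges_subset_edgeSet he
    rw [edgeSet_fromEdgeSet] at this
    simpa using this.1
  have h1 := Finset.card_le_card hsub
  rw [List.toFinset_card_of_nodup hnd, Walk.length_edges] at h1
  have h2 : ({a, b} : Finset (Sym2 (Fin 4))).card ≤ 2 := Finset.card_le_two
  omega

/-! ### no `M(K_4)`-minor in a direct sum of small pieces -/

theorem no_K4_minor_sum {α ι : Type} (π : α → ι) (M : Matroid α)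
    (hsum : ∀ I, (∀ i, M.Indep (I ∩ π ⁻¹' {i})) → M.Indep I)
    (hM3 : ∀ I i, M.Indep I → I ⊆ π ⁻¹' {i} → I.Finite ∧ I.ncard ≤ 3)
    (hon : ∀ i, ∀ e01 e02 e03 e12 e13 e23 : α,
      π e01 = i → π e02 = i → π e03 = i → π e12 = i → π e13 = i → π e23 = i →
      [e01, e02, e03, e12, e13, e23].Nodup →
      M.Indep {e01, e02, e03} →
      ¬ M.Indep {e01, e02, e12} → ¬ M.Indep {e01, e03, e13} → ¬ M.Indep {e02, e03, e23} →
      ¬ M.Indep {e12, e13, e23} → False) :
    ¬ ∃ N : Matroid α, Matroid.IsMinor N M ∧ IsMK4 N := by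
  rintro ⟨N, hNM, φ, hφ, hI⟩
  have hsurj : ∀ i j : Fin 4, i ≠ j → ∃ e ∈ N.E, φ e = s(i, j) := by
    intro i j hij
    have : s(i, j) ∈ {s : Sym2 (Fin 4) | ¬ s.IsDiag} := by simpa using hij
    exact hφ.surjOn this
  obtain ⟨e01, m01, f01⟩ := hsurj 0 1 (by decide)
  obtain ⟨e02, m02, f02⟩ := hsurj 0 2 (by decide)
  obtain ⟨e03, m03, f03⟩ := hsurj 0 3 (by decide)
  obtain ⟨e12, m12, f12⟩ := hsurj 1 2 (by decide)
  obtain ⟨e13, m13, f13⟩ := hsurj 1 3 (by decide)
  obtain ⟨e23, m23, f23⟩ := hsurj 2 3 (by decide)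
  have hsub3 : ∀ {a b c : α}, a ∈ N.E → b ∈ N.E → c ∈ N.E → ({a, b, c} : Set α) ⊆ N.E := by
    intro a b c ha hb hc x hx
    rcases hx with rfl | rfl | rfl <;> assumption
  have himg : ∀ a b c : α, φ '' ({a, b, c} : Set α) = {φ a, φ b, φ c} := by
    intro a b c
    simp [Set.image_insert_eq]
  -- pairs are independent in N
  have hpair : ∀ a ∈ N.E, ∀ b ∈ N.E, N.Indep {a, b} := by
    intro a ha b hb
    rw [hI _ (by rintro x (rfl | rfl) <;> assumption)]
    have : φ '' ({a, b} : Set α) = {φ a, φ b} := by simp [Set.image_insert_eq]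
    rw [this]
    exact pair_acyclic _ _
  -- the star is independent in N
  have hstar : N.Indep {e01, e02, e03} := by
    rw [hI _ (hsub3 m01 m02 m03), himg, f01, f02, f03]
    exact star_acyclic
  have ht1 : ¬ N.Indep {e01, e02, e12} := by
    rw [hI _ (hsub3 m01 m02 m12), himg, f01, f02, f12]
    exact triangle_not_acyclic 0 1 2 (by decide) (by decide) (by decide)
  have ht2 : ¬ N.Indep {e01, e03, e13} := by
    rw [hI _ (hsub3 m01 m03 m13), himg, f01, f03, f13]
    exact triangle_not_acyclic 0 1 3 (by decide) (by decide) (by decide)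
  have ht3 : ¬ N.Indep {e02, e03, e23} := by
    rw [hI _ (hsub3 m02 m03 m23), himg, f02, f03, f23]
    exact triangle_not_acyclic 0 2 3 (by decide) (by decide) (by decide)
  have ht4 : ¬ N.Indep {e12, e13, e23} := by
    rw [hI _ (hsub3 m12 m13 m23), himg, f12, f13, f23]
    exact triangle_not_acyclic 1 2 3 (by decide) (by decide) (by decide)
  -- distinctness
  have hnodup : [e01, e02, e03, e12, e13, e23].Nodup := by
    have : (List.map φ [e01, e02, e03, e12, e13, e23]).Nodup := by
      simp only [List.map_cons, List.map_nil, f01, f02, f03, f12, f13, f23]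
      decide
    exact List.Nodup.of_map _ this
  have hne1 : e01 ≠ e02 := by rintro rfl; simp at hnodup
  have hne2 : e01 ≠ e03 := by rintro rfl; simp at hnodup
  have hne3 : e02 ≠ e03 := by rintro rfl; simp at hnodup
  -- N in terms of M
  obtain ⟨C, D, hC, hD, hCD, hN⟩ := hNM.exists_eq_contract_delete_disjoint
  obtain ⟨K, hK⟩ := M.exists_isBasis C hC
  have hNind : ∀ I ⊆ N.E, (N.Indep I ↔ M.Indep (I ∪ K)) := by
    intro I hIN
    rw [hN] at hIN ⊢
    have hdC : Disjoint C I := by
      rw [Set.disjoint_left]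
      intro x hxC hxI
      have := hIN hxI
      simp only [Matroid.delete_ground, Matroid.contract_ground, Set.mem_sdiff] at this
      exact this.1.2 hxC
    have hdD : Disjoint I D := by
      rw [Set.disjoint_left]
      intro x hxI hxD
      have := hIN hxI
      simp only [Matroid.delete_ground, Matroid.contract_ground, Set.mem_sdiff] at this
      exact this.2 hxD
    rw [Matroid.delete_indep_iff, hK.contract_indep_iff]
    constructor
    · rintro ⟨⟨h, -⟩, -⟩
      exact h
    · intro h
      exact ⟨⟨h, hdC⟩, hdD⟩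
  have hKE : ∀ x ∈ K, x ∉ N.E := by
    intro x hxK hxN
    rw [hN] at hxN
    simp only [Matroid.delete_ground, Matroid.contract_ground, Set.mem_sdiff] at hxN
    exact hxN.1.2 (hK.subset hxK)
  -- a dependent triple of N lies in one piece
  have hone : ∀ a ∈ N.E, ∀ b ∈ N.E, ∀ c ∈ N.E, ¬ N.Indep {a, b, c} →
      π a = π b ∧ π a = π c := by
    intro a ha b hb c hc hdep
    by_contra hcon
    apply hdep
    rw [hNind _ (hsub3 ha hb hc)]
    have hP : ∀ x ∈ N.E, ∀ y ∈ N.E, M.Indep ({x, y} ∪ K) := fun x hx y hy =>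
      (hNind _ (by rintro z (rfl | rfl) <;> assumption)).mp (hpair x hx y hy)
    refine hsum _ fun i => ?_
    by_cases hai : π a = i
    · by_cases hbi : π b = i
      · have hci : π c ≠ i := fun h => hcon ⟨hai.trans hbi.symm, hai.trans h.symm⟩
        refine (hP a ha b hb).subset ?_
        rintro x ⟨(rfl | rfl | rfl) | hx, hxi⟩
        · exact Or.inl (Or.inl rfl)
        · exact Or.inl (Or.inr rfl)
        · exact absurd hxi hci
        · exact Or.inr hx
      · refine (hP a ha c hc).subset ?_
        rintro x ⟨(rfl | rfl | rfl) | hx, hxi⟩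
        · exact Or.inl (Or.inl rfl)
        · exact absurd hxi hbi
        · exact Or.inl (Or.inr rfl)
        · exact Or.inr hx
    · refine (hP b hb c hc).subset ?_
      rintro x ⟨(rfl | rfl | rfl) | hx, hxi⟩
      · exact absurd hxi hai
      · exact Or.inl (Or.inl rfl)
      · exact Or.inl (Or.inr rfl)
      · exact Or.inr hx
  obtain ⟨p1, p2⟩ := hone _ m01 _ m02 _ m12 ht1
  obtain ⟨p3, p4⟩ := hone _ m01 _ m03 _ m13 ht2
  obtain ⟨p5, p6⟩ := hone _ m02 _ m03 _ m23 ht3
  -- the piece
  obtain ⟨i, hi⟩ : ∃ i, π e01 = i := ⟨_, rfl⟩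
  have q02 : π e02 = i := p1.symm.trans hi
  have q03 : π e03 = i := p3.symm.trans hi
  have q12 : π e12 = i := p2.symm.trans hi
  have q13 : π e13 = i := p4.symm.trans hi
  have q23 : π e23 = i := p6.symm.trans q02
  -- K does not meet the piece
  have hkey : K ∩ π ⁻¹' {i} = ∅ := by
    have h2 := (hNind _ (hsub3 m01 m02 m03)).mp hstar
    have h3 : M.Indep ({e01, e02, e03} ∪ (K ∩ π ⁻¹' {i})) :=
      h2.subset (Set.union_subset_union_right _ Set.inter_subset_left)
    obtain ⟨hfin, hcard⟩ := hM3 _ i h3 (by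
      rintro x ((rfl | rfl | rfl) | hx)
      · exact hi
      · exact q02
      · exact q03
      · exact hx.2)
    by_contra hKne
    obtain ⟨k, hk⟩ := Set.nonempty_iff_ne_empty.mpr hKne
    have hkn : k ∉ ({e01, e02, e03} : Set α) := fun hmem =>
      hKE k hk.1 (hsub3 m01 m02 m03 hmem)
    have hsub : insert k ({e01, e02, e03} : Set α) ⊆ {e01, e02, e03} ∪ (K ∩ π ⁻¹' {i}) := by
      rintro x (rfl | hx)
      · exact Or.inr hk
      · exact Or.inl hx
    have h4 : (insert k ({e01, e02, e03} : Set α)).ncard = 4 := by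
      rw [Set.ncard_insert_of_notMem hkn, Set.ncard_eq_three.mpr ⟨e01, e02, e03, hne1, hne2,
        hne3, rfl⟩]
    have h5 := Set.ncard_le_ncard hsub hfin
    omega
  have hNM' : ∀ I ⊆ N.E, I ⊆ π ⁻¹' {i} → (N.Indep I ↔ M.Indep I) := by
    intro I hIN hIi
    rw [hNind I hIN]
    constructor
    · intro h
      exact h.subset Set.subset_union_left
    · intro h
      refine hsum _ fun j => ?_
      by_cases hj : j = i
      · subst hj
        rw [Set.union_inter_distrib_right, hkey, Set.union_empty]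
        exact h.subset Set.inter_subset_left
      · refine hK.indep.subset ?_
        rintro x ⟨hx | hx, hxj⟩
        · exact absurd ((Set.mem_singleton_iff.mp hxj).symm.trans
            (Set.mem_singleton_iff.mp (hIi hx))) hj
        · exact hx
  have hin : ∀ {a b c : α}, π a = i → π b = i → π c = i → ({a, b, c} : Set α) ⊆ π ⁻¹' {i} := by
    intro a b c ha hb hc x hx
    rcases hx with rfl | rfl | rfl <;> assumption
  exact hon i e01 e02 e03 e12 e13 e23 hi q02 q03 q12 q13 q23 hnodup
    ((hNM' _ (hsub3 m01 m02 m03) (hin hi q02 q03)).mp hstar)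
    (fun h => ht1 ((hNM' _ (hsub3 m01 m02 m12) (hin hi q02 q12)).mpr h))
    (fun h => ht2 ((hNM' _ (hsub3 m01 m03 m13) (hin hi q03 q13)).mpr h))
    (fun h => ht3 ((hNM' _ (hsub3 m02 m03 m23) (hin q02 q03 q23)).mpr h))
    (fun h => ht4 ((hNM' _ (hsub3 m12 m13 m23) (hin q12 q13 q23)).mpr h))

/-! ### direct sums of vector configurations -/

section blocks

set_option linter.unusedSectionVars false

variable {F : Type} [Field F] {ι : Type} [Finite ι] [DecidableEq ι] {A : ι → Type}
  [∀ i, Finite (A i)]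

/-- the vectors of a direct sum -/
noncomputable def sumVec (v : ∀ i, A i → (Fin 3 → F)) :
    (Σ i, A i) → (Fin (Nat.card (ι × Fin 3)) → F) :=
  fun x j => (Pi.single x.1 (v x.1 x.2) : ι → Fin 3 → F) ((Finite.equivFin (ι × Fin 3)).symm j).1
    ((Finite.equivFin (ι × Fin 3)).symm j).2

/-- the reindexing as an injective linear map -/
noncomputable def reindex (F : Type) [Field F] (ι : Type) [Finite ι] :
    (ι → Fin 3 → F) →ₗ[F] (Fin (Nat.card (ι × Fin 3)) → F) where
  toFun u := fun j => u ((Finite.equivFin (ι × Fin 3)).symm j).1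
    ((Finite.equivFin (ι × Fin 3)).symm j).2
  map_add' _ _ := rfl
  map_smul' _ _ := rfl

theorem reindex_injective : Function.Injective (reindex F ι) := by
  intro u u' h
  funext i j
  have := congrFun h (Finite.equivFin (ι × Fin 3) (i, j))
  simpa [reindex] using this

theorem indep_sumVec_iff (v : ∀ i, A i → (Fin 3 → F)) (I : Set (Σ i, A i)) :
    LinearIndepOn F (sumVec v) I ↔ ∀ i, LinearIndepOn F (v i) (Sigma.mk i ⁻¹' I) := by
  have e1 : LinearIndepOn F (sumVec v) I ↔
      LinearIndependent F (fun x : I => (Pi.single x.1.1 (v x.1.1 x.1.2) : ι → Fin 3 → F)) := by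
    constructor
    · intro h
      exact LinearIndependent.of_comp (reindex F ι) h
    · intro h
      exact h.map' (reindex F ι) (LinearMap.ker_eq_bot.mpr reindex_injective)
  rw [e1]
  constructor
  · intro h i
    have h1 : LinearIndependent F (fun x : (Sigma.mk i ⁻¹' I : Set (A i)) =>
        (Pi.single i (v i x) : ι → Fin 3 → F)) := by
      let f : (Sigma.mk i ⁻¹' I : Set (A i)) → I := fun x => ⟨⟨i, x.1⟩, x.2⟩
      have hf : Function.Injective f := by
        intro x y hxy
        have := congrArg Subtype.val hxy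
        simp only [f] at this
        exact Subtype.ext (eq_of_heq (Sigma.mk.inj this).2)
      exact h.comp f hf
    exact LinearIndependent.of_comp (LinearMap.single F (fun _ : ι => Fin 3 → F) i) h1
  · intro h
    have h1 := Pi.linearIndependent_single (R := F)
      (fun (i : ι) (x : (Sigma.mk i ⁻¹' I : Set (A i))) => v i x) (fun i => h i)
    let f : I → Σ i, (Sigma.mk i ⁻¹' I : Set (A i)) := fun x => ⟨x.1.1, ⟨x.1.2, x.2⟩⟩
    have hf : Function.Injective f := by
      rintro ⟨⟨i, x⟩, hx⟩ ⟨⟨j, y⟩, hy⟩ hxy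
      simp only [f, Sigma.mk.injEq] at hxy
      obtain ⟨rfl, hxy⟩ := hxy
      have := congrArg Subtype.val (eq_of_heq hxy)
      simp only at this
      subst this
      rfl
    exact h1.comp f hf

theorem ncard_sigma (I : Set (Σ i, A i)) [Fintype ι] :
    I.ncard = ∑ i, (Sigma.mk i ⁻¹' I : Set (A i)).ncard := by
  classical
  let e : I ≃ Σ i, (Sigma.mk i ⁻¹' I : Set (A i)) :=
    { toFun := fun x => ⟨x.1.1, ⟨x.1.2, x.2⟩⟩
      invFun := fun y => ⟨⟨y.1, y.2.1⟩, y.2.2⟩
      left_inv := fun _ => rfl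
      right_inv := fun _ => rfl }
  rw [← Nat.card_coe_set_eq, Nat.card_congr e, Nat.card_sigma]
  refine Finset.sum_congr rfl fun i _ => ?_
  rw [Nat.card_coe_set_eq]

theorem block_sum [Fintype ι] (v : ∀ i, A i → (Fin 3 → F))
    (hpair : ∀ i x y, LinearIndepOn F (v i) {x, y})
    (hon : ∀ i, ∀ e01 e02 e03 e12 e13 e23 : A i,
      [e01, e02, e03, e12, e13, e23].Nodup →
      LinearIndepOn F (v i) {e01, e02, e03} →
      ¬ LinearIndepOn F (v i) {e01, e02, e12} → ¬ LinearIndepOn F (v i) {e01, e03, e13} →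
      ¬ LinearIndepOn F (v i) {e02, e03, e23} →
      ¬ LinearIndepOn F (v i) {e12, e13, e23} → False)
    (ρ : ι → ℕ) (B : ∀ i, Set (A i)) (hB : ∀ i, LinearIndepOn F (v i) (B i))
    (hBc : ∀ i, (B i).ncard = ρ i)
    (hρ : ∀ i (I : Set (A i)), LinearIndepOn F (v i) I → I.ncard ≤ ρ i) :
    InClass F (vecMatroid (sumVec v)) ∧ HasRank (vecMatroid (sumVec v)) (∑ i, ρ i) ∧
      (vecMatroid (sumVec v)).E.ncard = ∑ i, Nat.card (A i) := by
  have hind : ∀ I, (vecMatroid (sumVec v)).Indep I ↔
      ∀ i, LinearIndepOn F (v i) (Sigma.mk i ⁻¹' I) := fun I => indep_sumVec_iff v I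
  refine ⟨⟨⟨_, sumVec v, fun I _ => Iff.rfl⟩, ?_, ?_⟩, ?_, ?_⟩
  · intro e _ f _
    rw [hind]
    intro i
    by_cases he : e.1 = i
    · obtain ⟨j, x⟩ := e
      subst he
      by_cases hf : f.1 = j
      · obtain ⟨j', y⟩ := f
        subst hf
        refine (hpair _ x y).mono ?_
        rintro z (hz | hz)
        · left
          exact eq_of_heq (Sigma.mk.inj hz).2
        · right
          exact eq_of_heq (Sigma.mk.inj hz).2
      · refine (hpair _ x x).mono ?_
        rintro z (hz | hz)
        · left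
          exact eq_of_heq (Sigma.mk.inj hz).2
        · exact absurd (congrArg Sigma.fst hz).symm hf
    · by_cases hf : f.1 = i
      · obtain ⟨j', y⟩ := f
        subst hf
        refine (hpair _ y y).mono ?_
        rintro z (hz | hz)
        · exact absurd (congrArg Sigma.fst hz).symm he
        · left
          exact eq_of_heq (Sigma.mk.inj hz).2
      · convert linearIndepOn_empty F (v i)
        ext z
        simp only [Set.mem_preimage, Set.mem_insert_iff, Set.mem_singleton_iff,
          Set.mem_empty_iff_false, iff_false, not_or]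
        exact ⟨fun hz => he (congrArg Sigma.fst hz).symm, fun hz => hf (congrArg Sigma.fst hz).symm⟩
  · have hmk : ∀ (i : ι) (I : Set (A i)), (vecMatroid (sumVec v)).Indep (Sigma.mk i '' I) ↔
        LinearIndepOn F (v i) I := by
      intro i I
      rw [hind]
      constructor
      · intro h
        have := h i
        rwa [Set.preimage_image_eq _ sigma_mk_injective] at this
      · intro h j
        by_cases hj : j = i
        · subst hj
          rwa [Set.preimage_image_eq _ sigma_mk_injective]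
        · convert linearIndepOn_empty F (v j)
          ext z
          simp only [Set.mem_preimage, Set.mem_image, Set.mem_empty_iff_false, iff_false, not_exists,
            not_and]
          intro x _ hx
          exact hj (congrArg Sigma.fst hx).symm
    refine no_K4_minor_sum (fun x => x.1) _ ?_ ?_ ?_
    · intro I h
      rw [hind]
      intro i
      have := (hind _).mp (h i) i
      refine this.mono ?_
      intro x hx
      exact ⟨hx, rfl⟩
    · intro I i hI hIi
      refine ⟨Set.toFinite I, ?_⟩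
      have h1 := (hind I).mp hI i
      have h2 : I = Sigma.mk i '' (Sigma.mk i ⁻¹' I) := by
        rw [Set.image_preimage_eq_inter_range, eq_comm, Set.inter_eq_left]
        rintro ⟨j, x⟩ hx
        have : j = i := hIi hx
        subst this
        exact ⟨x, rfl⟩
      rw [h2, Set.ncard_image_of_injective _ sigma_mk_injective]
      have : Fintype (Sigma.mk i ⁻¹' I : Set (A i)) := Fintype.ofFinite _
      have h3 := LinearIndependent.fintype_card_le_finrank h1
      rw [Module.finrank_fin_fun] at h3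
      rwa [Set.ncard_eq_toFinset_card', Set.toFinset_card]
    · rintro i ⟨j1, e01⟩ ⟨j2, e02⟩ ⟨j3, e03⟩ ⟨j4, e12⟩ ⟨j5, e13⟩ ⟨j6, e23⟩ h1 h2 h3 h4 h5 h6 hnd
      simp only at h1 h2 h3 h4 h5 h6
      subst h1 h2 h3 h4 h5 h6
      have himg3 : ∀ a b c : A j6, ({⟨j6, a⟩, ⟨j6, b⟩, ⟨j6, c⟩} : Set (Σ i, A i)) =
          Sigma.mk j6 '' {a, b, c} := by
        intro a b c
        simp [Set.image_insert_eq]
      simp only [himg3, hmk]
      refine hon j6 e01 e02 e03 e12 e13 e23 ?_
      exact List.Nodup.of_map (Sigma.mk j6) hnd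
  · obtain ⟨B', hB', hsub⟩ := ((hind {x | x.2 ∈ B x.1}).mpr
      (fun i => hB i)).exists_isBase_superset
    refine ⟨B', hB', le_antisymm ?_ ?_⟩
    · rw [ncard_sigma]
      exact Finset.sum_le_sum fun i _ => hρ i _ ((hind _).mp hB'.indep i)
    · refine le_trans (le_of_eq ?_) (Set.ncard_le_ncard hsub (Set.toFinite _))
      rw [ncard_sigma]
      exact Finset.sum_congr rfl fun i _ => (hBc i).symm
  · rw [vecMatroid_E, ncard_sigma]
    refine Finset.sum_congr rfl fun i _ => ?_
    simp [Set.ncard_univ]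

end blocks

/-! ### the Hermitian curve -/

/-- The points of an affine Hermitian curve `y + y^s = x^(s+1) + c`. -/
theorem curve_points {F : Type} [Field F] [Fintype F] (s : ℕ) (hs : 1 < s) (σ : F →+* F)
    (hσ : ∀ x, σ x = x ^ s) (hF : Fintype.card F = s ^ 2) :
    ∃ c : F, s ^ 3 ≤ Nat.card {z : F × F // z.2 + σ z.2 - z.1 * σ z.1 = c} := by
  classical
  have hinv : ∀ x : F, σ (σ x) = x := by
    intro x
    rw [hσ, hσ, ← pow_mul, ← pow_two, ← hF]
    exact FiniteField.pow_card x
  set Fix : Finset F := Finset.univ.filter (fun z : F => z ^ s = z) with hFix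
  have hFixcard : Fix.card ≤ s := by
    have hne : (Polynomial.X ^ s - Polynomial.X : Polynomial F) ≠ 0 :=
      FiniteField.X_pow_card_sub_X_ne_zero F hs
    have hsub : Fix ⊆ (Polynomial.X ^ s - Polynomial.X : Polynomial F).roots.toFinset := by
      intro z hz
      rw [Multiset.mem_toFinset, Polynomial.mem_roots hne]
      simp only [hFix, Finset.mem_filter, Finset.mem_univ, true_and] at hz
      simp [Polynomial.IsRoot, hz]
    calc Fix.card ≤ (Polynomial.X ^ s - Polynomial.X : Polynomial F).roots.toFinset.card :=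
          Finset.card_le_card hsub
      _ ≤ Multiset.card (Polynomial.X ^ s - Polynomial.X : Polynomial F).roots :=
          Multiset.toFinset_card_le _
      _ ≤ (Polynomial.X ^ s - Polynomial.X : Polynomial F).natDegree :=
          Polynomial.card_roots' _
      _ = s := FiniteField.X_pow_card_sub_X_natDegree_eq F hs
  have hmaps : ∀ z ∈ (Finset.univ : Finset (F × F)),
      z.2 + σ z.2 - z.1 * σ z.1 ∈ Fix := by
    intro z _
    simp only [hFix, Finset.mem_filter, Finset.mem_univ, true_and]
    rw [← hσ, map_sub, map_add, map_mul, hinv, hinv]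
    ring
  have hne : Fix.Nonempty := ⟨0, by simp [hFix]; omega⟩
  have hcard : Fix.card * s ^ 3 ≤ (Finset.univ : Finset (F × F)).card := by
    rw [Finset.card_univ, Fintype.card_prod, hF]
    calc Fix.card * s ^ 3 ≤ s * s ^ 3 := Nat.mul_le_mul_right _ hFixcard
      _ = s ^ 2 * s ^ 2 := by ring
  obtain ⟨c, _, hc⟩ := Finset.exists_le_card_fiber_of_mul_le_card_of_maps_to hmaps hne hcard
  refine ⟨c, ?_⟩
  rw [Nat.card_eq_fintype_card, Fintype.card_subtype]
  exact hc

/-- Everything about one Hermitian curve. -/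
theorem curve_block {F : Type} [Field F] [Fintype F] (s : ℕ) (hs : 1 < s) (σ : F →+* F)
    (hσ : ∀ x, σ x = x ^ s) (hF : Fintype.card F = s ^ 2) :
    ∃ (A : Type) (_ : Finite A) (v : A → (Fin 3 → F)) (B : Set A),
      (∀ x y, LinearIndepOn F v {x, y}) ∧
      (∀ e01 e02 e03 e12 e13 e23 : A,
        [e01, e02, e03, e12, e13, e23].Nodup →
        LinearIndepOn F v {e01, e02, e03} →
        ¬ LinearIndepOn F v {e01, e02, e12} → ¬ LinearIndepOn F v {e01, e03, e13} →
        ¬ LinearIndepOn F v {e02, e03, e23} →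
        ¬ LinearIndepOn F v {e12, e13, e23} → False) ∧
      LinearIndepOn F v B ∧ B.ncard = 3 ∧
      (∀ I : Set A, LinearIndepOn F v I → I.ncard ≤ 3) ∧ s ^ 3 ≤ Nat.card A := by
  classical
  obtain ⟨c, hc⟩ := curve_points s hs σ hσ hF
  let α := {z : F × F // z.2 + σ z.2 - z.1 * σ z.1 = c}
  let X : α → F := fun z => z.1.1
  let Y : α → F := fun z => z.1.2
  have hcurve : ∀ z : α, Y z + σ (Y z) = X z * σ (X z) + c := by
    intro z
    have := z.2
    show z.1.2 + σ z.1.2 = z.1.1 * σ z.1.1 + c
    linear_combination this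
  have hinj : ∀ z w : α, X z = X w → Y z = Y w → z = w := by
    intro z w h1 h2
    exact Subtype.ext (Prod.ext h1 h2)
  -- three points that are not collinear
  have hthree : ∃ p q r : α, (X q - X p) * (Y r - Y p) - (X r - X p) * (Y q - Y p) ≠ 0 := by
    by_contra hcon
    push Not at hcon
    have h8 : 1 < s ^ 3 := Nat.one_lt_pow (by norm_num) hs
    have hnt : Nontrivial α := by
      rw [← Finite.one_lt_card_iff_nontrivial]
      exact lt_of_lt_of_le h8 hc
    obtain ⟨p, q, hpq⟩ := hnt.exists_pair_ne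
    have hle : Nat.card α ≤ Nat.card F := by
      by_cases hx : X q = X p
      · have hy : Y q - Y p ≠ 0 := fun h => hpq (hinj _ _ hx.symm (by linear_combination -h))
        refine Nat.card_le_card_of_injective (fun z : α => Y z) ?_
        intro z w hzw
        have hX : ∀ z, X z = X p := by
          intro z
          have h := hcon p q z
          rw [hx, sub_self, zero_mul, zero_sub, neg_eq_zero] at h
          rcases mul_eq_zero.mp h with h | h
          · linear_combination h
          · exact absurd h hy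
        exact hinj _ _ ((hX z).trans (hX w).symm) hzw
      · have hx' : X q - X p ≠ 0 := sub_ne_zero.mpr hx
        refine Nat.card_le_card_of_injective (fun z : α => X z) ?_
        intro z w hzw
        refine hinj _ _ hzw ?_
        have h1 := hcon p q z
        have h2 := hcon p q w
        have hzw' : X z = X w := hzw
        have h3 : (X q - X p) * (Y z - Y w) = 0 := by
          rw [hzw'] at h1
          linear_combination h1 - h2
        rcases mul_eq_zero.mp h3 with h | h
        · exact absurd h hx'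
        · linear_combination h
    rw [Nat.card_eq_fintype_card, Nat.card_eq_fintype_card, hF] at hle
    rw [Nat.card_eq_fintype_card] at hc
    have h9 : s ^ 2 < s ^ 3 := Nat.pow_lt_pow_right hs (by norm_num)
    have h10 : s ^ 3 ≤ s ^ 2 := le_trans hc hle
    omega
  obtain ⟨p, q, r, hpqr⟩ := hthree
  have n1 : p ≠ q := by rintro rfl; apply hpqr; ring
  have n2 : p ≠ r := by rintro rfl; apply hpqr; ring
  have n3 : q ≠ r := by rintro rfl; apply hpqr; ring
  refine ⟨α, inferInstance, fun z => ![1, X z, Y z], {p, q, r}, ?_, ?_,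
    (indep_three_iff X Y p q r n1 n2 n3).mpr hpqr,
    Set.ncard_eq_three.mpr ⟨p, q, r, n1, n2, n3, rfl⟩, ?_, hc⟩
  · intro e f
    by_cases hef : e = f
    · subst hef
      rw [Set.pair_eq_singleton, linearIndepOn_singleton_iff]
      intro h0
      have := congrFun h0 0
      simp at this
    · rw [LinearIndepOn.pair_iff _ hef]
      intro s t hst
      have h0 := congrFun hst 0
      have h1 := congrFun hst 1
      have h2 := congrFun hst 2
      simp at h0 h1 h2
      have ht : t = -s := by linear_combination h0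
      subst ht
      have hx : s * (X e - X f) = 0 := by linear_combination h1
      have hy : s * (Y e - Y f) = 0 := by linear_combination h2
      by_cases hs : s = 0
      · simp [hs]
      · exfalso
        apply hef
        apply hinj
        · rcases mul_eq_zero.mp hx with h | h
          · exact absurd h hs
          · linear_combination h
        · rcases mul_eq_zero.mp hy with h | h
          · exact absurd h hs
          · linear_combination h
  · intro e01 e02 e03 e12 e13 e23 hnd hi1 hi2 hi3 hi4 hi5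
    simp only [List.nodup_cons, List.mem_cons, List.not_mem_nil, or_false, not_or,
      List.nodup_nil, and_true, not_false_eq_true] at hnd
    obtain ⟨⟨n1, n2, n3, n4, n5⟩, ⟨n6, n7, n8, n9⟩, ⟨n10, n11, n12⟩, ⟨n13, n14⟩, n15⟩ := hnd
    have E1 := (indep_three_iff X Y e01 e02 e03 n1 n2 n6).mp hi1
    have E2 := mt (indep_three_iff X Y e01 e02 e12 n1 n3 n7).mpr hi2
    have E3 := mt (indep_three_iff X Y e01 e03 e13 n2 n4 n11).mpr hi3
    have E4 := mt (indep_three_iff X Y e02 e03 e23 n6 n9 n12).mpr hi4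
    have E5 := mt (indep_three_iff X Y e12 e13 e23 n13 n14 n15).mpr hi5
    push Not at E2 E3 E4 E5
    refine onan_det σ c (X e01) (Y e01) (X e02) (Y e02) (X e03) (Y e03)
      (X e12) (Y e12) (X e13) (Y e13) (X e23) (Y e23) (hcurve _) (hcurve _) (hcurve _)
      (hcurve _) (hcurve _) (hcurve _) E1 ?_ ?_ ?_ E2 E3 E4 E5
    · rintro ⟨h1, h2⟩; exact n3 (hinj _ _ h1 h2).symm
    · rintro ⟨h1, h2⟩; exact n11 (hinj _ _ h1 h2).symm
    · rintro ⟨h1, h2⟩; exact n9 (hinj _ _ h1 h2).symm
  · intro I hI
    have : Fintype I := Fintype.ofFinite I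
    have h3 := LinearIndependent.fintype_card_le_finrank hI
    rw [Module.finrank_fin_fun] at h3
    rwa [Set.ncard_eq_toFinset_card', Set.toFinset_card]

/-! ### the theorem -/

theorem main1 (F : Type) [Field F] [Fintype F] (s : ℕ) (hF : Fintype.card F = s ^ 2) (r : ℕ) :
    ∃ (α : Type) (_ : Finite α) (M : Matroid α), InClass F M ∧ HasRank M r ∧
      s ^ 3 * (r / 3) ≤ M.E.ncard := by
  classical
  have hs : 1 < s := by
    have h1 : 1 < Fintype.card F := Fintype.one_lt_card
    rw [hF] at h1
    by_contra hcon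
    have h2 : s ^ 2 ≤ 1 ^ 2 := Nat.pow_le_pow_left (by omega) 2
    omega
  obtain ⟨p, hchar⟩ := CharP.exists F
  obtain ⟨n, hp, hcard⟩ := FiniteField.card F p
  have hdvd : s ∣ p ^ (n : ℕ) := by
    rw [← hcard, hF]
    exact Dvd.intro_left (s ^ 1) (by ring)
  obtain ⟨j, -, hj⟩ := (Nat.dvd_prime_pow hp).mp hdvd
  have : ExpChar F p := ExpChar.prime hp
  obtain ⟨A, hA, v, B, b1, b2, b3, b4, b5, b6⟩ := curve_block s hs (iterateFrobenius F p j)
    (fun x => by rw [iterateFrobenius_def, hj]) hF
  let A' : Fin (r / 3) ⊕ Fin (r % 3) → Type := fun i => Sum.elim (fun _ => A) (fun _ => Unit) i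
  let v' : ∀ i, A' i → (Fin 3 → F) := fun i => match i with
    | Sum.inl _ => v
    | Sum.inr _ => fun _ => ![1, 0, 0]
  let B' : ∀ i, Set (A' i) := fun i => match i with
    | Sum.inl _ => B
    | Sum.inr _ => Set.univ
  have hfin : ∀ i, Finite (A' i) := by
    rintro (i | i)
    · exact hA
    · exact (inferInstance : Finite Unit)
  have hunit : ∀ I : Set Unit, LinearIndepOn F (fun _ : Unit => (![1, 0, 0] : Fin 3 → F)) I := by
    intro I
    have h1 : LinearIndepOn F (fun _ : Unit => (![1, 0, 0] : Fin 3 → F)) ({()} : Set Unit) := by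
      rw [linearIndepOn_singleton_iff]
      intro h0
      have := congrFun h0 0
      simp at this
    exact h1.mono (fun x _ => rfl)
  obtain ⟨h1, h2, h3⟩ := block_sum (F := F) v'
    (by
      rintro (i | i) x y
      · exact b1 x y
      · exact hunit _)
    (by
      rintro (i | i) e01 e02 e03 e12 e13 e23 hnd
      · exact b2 e01 e02 e03 e12 e13 e23 hnd
      · exfalso
        have : e01 = e02 := Subsingleton.elim (α := Unit) _ _
        subst this
        simp at hnd)
    (fun i => Sum.elim (fun _ => 3) (fun _ => 1) i) B'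
    (by
      rintro (i | i)
      · exact b3
      · exact hunit _)
    (by
      rintro (i | i)
      · exact b4
      · show (Set.univ : Set Unit).ncard = 1
        simp)
    (by
      rintro (i | i) I hI
      · exact b5 I hI
      · show I.ncard ≤ 1
        exact le_trans (Set.ncard_le_card (α := Unit) I) (by simp))
  refine ⟨_, inferInstance, _, h1, ?_, ?_⟩
  · convert h2 using 1
    simp only [Fintype.sum_sum_type, Sum.elim_inl, Sum.elim_inr, Finset.sum_const,
      Finset.card_univ, Fintype.card_fin, smul_eq_mul, mul_one]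
    omega
  · rw [h3]
    simp only [Fintype.sum_sum_type]
    have h4 : ∑ i : Fin (r / 3), Nat.card (A' (Sum.inl i)) = Nat.card A * (r / 3) := by
      have : ∀ i : Fin (r / 3), Nat.card (A' (Sum.inl i)) = Nat.card A := fun _ => rfl
      simp only [this, Finset.sum_const, Finset.card_univ, Fintype.card_fin, smul_eq_mul]
      ring
    rw [h4]
    have := Nat.mul_le_mul_right (r / 3) b6
    omega

/-- For every finite field `F` with `q = s^2` elements and every rank `r` there is a member of
`C_q` of rank `r` with at least `q^(3/2) * floor(r/3)` elements. Hence for all real `a, b` the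
bound `|E(M)| ≤ (a q + b) r` fails for every large square `q`, in every rank `r ≥ 3`. -/
theorem result :
    (∀ (F : Type) [Field F] [Fintype F] (s : ℕ), Fintype.card F = s ^ 2 → ∀ r : ℕ,
      ∃ (α : Type) (_ : Finite α) (M : Matroid α), InClass F M ∧ HasRank M r ∧
        s ^ 3 * (r / 3) ≤ M.E.ncard) ∧
    (∀ a b : ℝ, ∃ q₀ : ℕ, ∀ (F : Type) [Field F] [Fintype F], IsSquare (Fintype.card F) →
      q₀ ≤ Fintype.card F → ∀ r : ℕ, 3 ≤ r →
        ∃ (α : Type) (_ : Finite α) (M : Matroid α), InClass F M ∧ HasRank M r ∧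
          (a * (Fintype.card F : ℝ) + b) * (r : ℝ) < (M.E.ncard : ℝ)) := by
  refine ⟨fun F _ _ s hF r => main1 F s hF r, ?_⟩
  intro a b
  refine ⟨(Nat.ceil (5 * (|a| + |b|)) + 1) ^ 2, ?_⟩
  intro F _ _ ⟨s, hs⟩ hq r hr
  obtain ⟨α, hα, M, h1, h2, h3⟩ := main1 F s (by rw [hs, pow_two]) r
  refine ⟨α, hα, M, h1, h2, ?_⟩
  have hs2 : Fintype.card F = s ^ 2 := by rw [hs, pow_two]
  rw [hs2] at hq ⊢
  have hs3 : Nat.ceil (5 * (|a| + |b|)) + 1 ≤ s := (Nat.pow_le_pow_iff_left (by norm_num)).mp hq
  have hs4 : 5 * (|a| + |b|) < s := by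
    have h4 := Nat.le_ceil (5 * (|a| + |b|))
    have h5 : ((Nat.ceil (5 * (|a| + |b|)) + 1 : ℕ) : ℝ) ≤ (s : ℝ) := by exact_mod_cast hs3
    push_cast at h5
    linarith
  have hs1 : (1 : ℝ) ≤ s := by
    have : 1 ≤ s := by omega
    exact_mod_cast this
  have hr5 : r ≤ 5 * (r / 3) := by omega
  have hr6 : (r : ℝ) ≤ 5 * ((r / 3 : ℕ) : ℝ) := by exact_mod_cast hr5
  have h6 : (s : ℝ) ^ 3 * ((r / 3 : ℕ) : ℝ) ≤ (M.E.ncard : ℝ) := by exact_mod_cast h3
  have hrpos : (0 : ℝ) < r := by
    have : 0 < r := by omega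
    exact_mod_cast this
  have h7 : a * ((s ^ 2 : ℕ) : ℝ) + b ≤ (|a| + |b|) * (s : ℝ) ^ 2 := by
    push_cast
    have e1 : a * (s : ℝ) ^ 2 ≤ |a| * (s : ℝ) ^ 2 :=
      mul_le_mul_of_nonneg_right (le_abs_self a) (by positivity)
    have e2 : b ≤ |b| * (s : ℝ) ^ 2 := by
      have e3 : (1 : ℝ) ≤ (s : ℝ) ^ 2 := one_le_pow₀ hs1
      have e4 := abs_nonneg b
      have e5 := le_abs_self b
      nlinarith
    linarith
  have h8 : (|a| + |b|) * (s : ℝ) ^ 2 < (s : ℝ) ^ 3 / 5 := by
    have e1 : (0 : ℝ) < (s : ℝ) ^ 2 := by positivity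
    have e2 : (s : ℝ) ^ 3 / 5 = (s / 5) * (s : ℝ) ^ 2 := by ring
    rw [e2]
    exact mul_lt_mul_of_pos_right (by linarith) e1
  calc (a * ((s ^ 2 : ℕ) : ℝ) + b) * (r : ℝ) < (s : ℝ) ^ 3 / 5 * (r : ℝ) :=
        mul_lt_mul_of_pos_right (lt_of_le_of_lt h7 h8) hrpos
    _ ≤ (s : ℝ) ^ 3 / 5 * (5 * ((r / 3 : ℕ) : ℝ)) :=
        mul_le_mul_of_nonneg_left hr6 (by positivity)
    _ = (s : ℝ) ^ 3 * ((r / 3 : ℕ) : ℝ) := by ring
    _ ≤ _ := h6

end Pool.Agent.Results.MP_6d5213_co.SquareFields
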